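import Mathlib

set_option autoImplicit false

namespace Pool.Agent.Results.MP_e06427_co.SeventeenVertices

/-- `G` is `k`-critical: its chromatic number is `k` and every proper subgraph has smaller
chromatic number. -/
def IsCritical {V : Type} (G : SimpleGraph V) (k : ℕ) : Prop :=
  G.chromaticNumber = k ∧ ∀ H : G.Subgraph, H ≠ ⊤ → H.coe.chromaticNumber < k

/-- `G` is obtained from `G₁` and `G₂` by Dirac's construction. The complete `h`-graphs `H₁`, `H₂`
have the vertices `a₁ j` and `a₂ j` (`j : Fin h`), and `a₁ j` is identified with `a₂ j`; the vertex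
`xᵢ` of `Hᵢ` is `aᵢ j₀`, and `yᵢ` is a vertex of `Gᵢ` outside `Hᵢ` adjacent to `xᵢ`. The maps
`f₁`, `f₂` are the inclusions of the vertex sets of `G₁`, `G₂` into the vertex set of `G`. The
edges of `G` are the edges of `G₁` except `x₁y₁`, the edges of `G₂` except `x₂y₂`, and the new
edge `y₁y₂`. -/
def IsDirac {V₁ V₂ W : Type} (h : ℕ) (G₁ : SimpleGraph V₁) (G₂ : SimpleGraph V₂)
    (G : SimpleGraph W) (a₁ : Fin h → V₁) (a₂ : Fin h → V₂) (j₀ : Fin h) (y₁ : V₁) (y₂ : V₂)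
    (f₁ : V₁ → W) (f₂ : V₂ → W) : Prop :=
  (Function.Injective a₁ ∧ ∀ i j, i ≠ j → G₁.Adj (a₁ i) (a₁ j)) ∧
  (Function.Injective a₂ ∧ ∀ i j, i ≠ j → G₂.Adj (a₂ i) (a₂ j)) ∧
  ((∀ j, a₁ j ≠ y₁) ∧ G₁.Adj (a₁ j₀) y₁) ∧
  ((∀ j, a₂ j ≠ y₂) ∧ G₂.Adj (a₂ j₀) y₂) ∧
  (Function.Injective f₁ ∧ Function.Injective f₂ ∧
    (∀ w, (∃ u, f₁ u = w) ∨ ∃ v, f₂ v = w) ∧
    ∀ u v, f₁ u = f₂ v ↔ ∃ j, u = a₁ j ∧ v = a₂ j) ∧
  ∀ w w', G.Adj w w' ↔
    (∃ u v, f₁ u = w ∧ f₁ v = w' ∧ G₁.Adj u v ∧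
      ¬((u = a₁ j₀ ∧ v = y₁) ∨ (u = y₁ ∧ v = a₁ j₀))) ∨
    (∃ u v, f₂ u = w ∧ f₂ v = w' ∧ G₂.Adj u v ∧
      ¬((u = a₂ j₀ ∧ v = y₂) ∨ (u = y₂ ∧ v = a₂ j₀))) ∨
    (w = f₁ y₁ ∧ w' = f₂ y₂) ∨ (w = f₂ y₂ ∧ w' = f₁ y₁)

/-! ### The graphs -/

def rows1 : List ℕ := [960, 928, 792, 628, 364, 730, 441, 867, 215, 175]

def adj1 (u v : ℕ) : Bool := (rows1.getD u 0).testBit v

def rows : List ℕ := [960, 928, 792, 628, 364, 92890, 25785, 102243, 32919, 175, 98496, 98464,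
  122880, 86112, 45152, 23936, 15520]

def adj (u v : ℕ) : Bool := (rows.getD u 0).testBit v

/-- The `5`-critical graph on ten vertices. -/
def G1 : SimpleGraph (Fin 10) where
  Adj u v := adj1 u.val v.val = true
  symm := ⟨by decide⟩
  loopless := ⟨by decide⟩

instance : DecidableRel G1.Adj := fun u v => inferInstanceAs (Decidable (adj1 u.val v.val = true))

/-- The graph on seventeen vertices obtained from two copies of `G1` by Dirac's construction. -/
def G : SimpleGraph (Fin 17) where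
  Adj u v := adj u.val v.val = true
  symm := ⟨by decide⟩
  loopless := ⟨by decide⟩

instance : DecidableRel G.Adj := fun u v => inferInstanceAs (Decidable (adj u.val v.val = true))

/-- The adjacency of `G` without the edge `67`. -/
def adjm (u v : ℕ) : Bool :=
  adj u v && !((Nat.beq u 6 && Nat.beq v 7) || (Nat.beq u 7 && Nat.beq v 6))

/-! ### Non-colourability by search -/

/-- `noCol a q vs cl`: no proper colouring of the vertices in `vs` extends the list `cl` of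
coloured vertices. -/
def noCol (a : ℕ → ℕ → Bool) (q : ℕ) : List ℕ → List (ℕ × ℕ) → Bool
  | [], _ => false
  | v :: vs, cl => (List.range q).all fun c =>
      (cl.any fun p => Nat.beq p.2 c && a v p.1) || noCol a q vs ((v, c) :: cl)

theorem noCol_sound (a : ℕ → ℕ → Bool) (q n : ℕ) (f : ℕ → ℕ) (hf : ∀ v, v < n → f v < q)
    (hprop : ∀ u v, u < n → v < n → a u v = true → f u ≠ f v) :
    ∀ (vs : List ℕ) (cl : List (ℕ × ℕ)), (∀ v ∈ vs, v < n) →
      (∀ p ∈ cl, p.1 < n ∧ f p.1 = p.2) → noCol a q vs cl = false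
  | [], _, _, _ => rfl
  | v :: vs, cl, hvs, hcl => by
    by_contra hne
    rw [Bool.not_eq_false, noCol, List.all_eq_true] at hne
    have hv : v < n := hvs v (List.mem_cons_self)
    have h1 := hne (f v) (List.mem_range.2 (hf v hv))
    rw [Bool.or_eq_true] at h1
    rcases h1 with h1 | h1
    · rw [List.any_eq_true] at h1
      obtain ⟨p, hp, h2⟩ := h1
      rw [Bool.and_eq_true] at h2
      have h3 : p.2 = f v := Nat.eq_of_beq_eq_true h2.1
      have h4 := hcl p hp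
      exact hprop v p.1 hv h4.1 h2.2 (by rw [h4.2, h3])
    · have h5 := noCol_sound a q n f hf hprop vs ((v, f v) :: cl)
        (fun w hw => hvs w (List.mem_cons_of_mem _ hw)) (by
          intro p hp
          rcases List.mem_cons.1 hp with rfl | hp
          · exact ⟨hv, rfl⟩
          · exact hcl p hp)
      rw [h5] at h1
      exact absurd h1 (by simp)

theorem search1 : noCol adj1 4 [0, 6, 7, 8, 5, 9, 1, 3, 4, 2] [] = true := by decide +kernel

theorem search : noCol adjm 4 [3, 5, 9, 7, 1, 6, 4, 8, 0, 2, 15, 14, 13, 16, 10, 11, 12] [] =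
    true := by decide +kernel

theorem G1_not4 : ¬ G1.Colorable 4 := by
  rintro ⟨C⟩
  have h := noCol_sound adj1 4 10 (fun v => if h : v < 10 then (C ⟨v, h⟩).val else 0)
    (by
      intro v hv
      simp only [hv, dite_true]
      exact (C ⟨v, hv⟩).isLt)
    (by
      intro u v hu hv huv
      simp only [hu, hv, dite_true]
      intro h0
      exact C.valid (show G1.Adj ⟨u, hu⟩ ⟨v, hv⟩ from huv) (Fin.ext h0))
    [0, 6, 7, 8, 5, 9, 1, 3, 4, 2] [] (by decide) (by simp)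
  rw [search1] at h
  exact absurd h (by simp)

/-- Colourings of `G1` without one edge. -/
def table : List (Fin 10 → Fin 4) :=
  [![0, 0, 0, 0, 1, 2, 3, 1, 2, 3], ![0, 0, 0, 1, 0, 2, 3, 1, 2, 3],
   ![0, 0, 0, 1, 1, 2, 3, 1, 2, 3], ![0, 0, 0, 1, 2, 0, 3, 2, 1, 3],
   ![0, 0, 0, 1, 2, 1, 3, 2, 1, 3], ![0, 1, 1, 2, 0, 0, 1, 2, 3, 3],
   ![0, 0, 0, 1, 2, 3, 0, 1, 3, 2], ![0, 1, 0, 1, 2, 0, 1, 2, 3, 3],
   ![0, 0, 0, 1, 2, 3, 2, 1, 3, 2], ![0, 0, 1, 0, 2, 1, 1, 2, 3, 3],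
   ![0, 1, 1, 0, 2, 3, 1, 0, 3, 2], ![0, 1, 0, 2, 1, 0, 3, 1, 2, 3],
   ![0, 0, 1, 2, 0, 1, 3, 1, 2, 3], ![0, 0, 1, 0, 2, 3, 1, 1, 3, 2],
   ![0, 1, 1, 2, 3, 0, 1, 2, 0, 3], ![0, 1, 0, 1, 2, 0, 3, 2, 1, 3],
   ![0, 0, 1, 0, 2, 1, 3, 2, 1, 3], ![0, 1, 0, 2, 3, 0, 1, 2, 3, 3],
   ![0, 0, 1, 0, 2, 1, 3, 2, 3, 3], ![0, 0, 1, 2, 0, 1, 3, 2, 2, 3],
   ![0, 1, 1, 2, 0, 3, 1, 2, 3, 0], ![0, 1, 0, 2, 3, 0, 1, 3, 2, 1],
   ![0, 0, 1, 0, 2, 3, 1, 2, 3, 1], ![0, 1, 0, 2, 3, 0, 1, 3, 2, 2],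
   ![0, 0, 1, 0, 2, 3, 1, 2, 3, 3], ![0, 0, 1, 0, 2, 3, 1, 2, 3, 2]]

theorem table_spec : ∀ u v : Fin 10, G1.Adj u v → ∃ c ∈ table, ∀ a b : Fin 10, G1.Adj a b →
    ¬((a = u ∧ b = v) ∨ (a = v ∧ b = u)) → c a ≠ c b := by
  decide +kernel

theorem G1_nbr : ∀ u : Fin 10, ∃ v, G1.Adj u v := by decide +kernel

theorem G1_critical : IsCritical G1 5 := by
  constructor
  · apply le_antisymm
    · have : G1.Colorable 5 := by
        refine ⟨SimpleGraph.Coloring.mk (![0, 0, 0, 1, 2, 3, 4, 1, 3, 2] : Fin 10 → Fin 5) ?_⟩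
        have : ∀ a b : Fin 10, G1.Adj a b → (![0, 0, 0, 1, 2, 3, 4, 1, 3, 2] : Fin 10 → Fin 5) a ≠
            (![0, 0, 0, 1, 2, 3, 4, 1, 3, 2] : Fin 10 → Fin 5) b := by decide +kernel
        exact fun {a b} h => this a b h
      exact_mod_cast this.chromaticNumber_le
    · by_contra hcon
      push Not at hcon
      apply G1_not4
      rw [← SimpleGraph.chromaticNumber_le_iff_colorable]
      have h5 : ((5 : ℕ) : ℕ∞) = ((4 : ℕ) : ℕ∞) + 1 := by norm_num
      rw [h5] at hcon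
      exact Order.le_of_lt_add_one hcon
  · intro H hH
    obtain ⟨u, v, huv, hH'⟩ : ∃ u v, G1.Adj u v ∧ ¬ H.Adj u v := by
      by_contra hcon
      push Not at hcon
      apply hH
      apply SimpleGraph.Subgraph.ext
      · ext u
        obtain ⟨v, huv⟩ := G1_nbr u
        simp only [SimpleGraph.Subgraph.verts_top, Set.mem_univ, iff_true]
        exact H.edge_vert (hcon u v huv)
      · funext u v
        apply propext
        rw [SimpleGraph.Subgraph.top_adj]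
        exact ⟨fun h => H.adj_sub h, hcon u v⟩
    obtain ⟨c, _, hc⟩ := table_spec u v huv
    have h4 : H.coe.Colorable 4 := by
      refine ⟨SimpleGraph.Coloring.mk (fun x => c x.1) ?_⟩
      intro a b hab
      have hab' : H.Adj a.1 b.1 := hab
      apply hc a.1 b.1 (H.adj_sub hab')
      rintro (⟨h1, h2⟩ | ⟨h1, h2⟩)
      · rw [h1, h2] at hab'
        exact hH' hab'
      · rw [h1, h2] at hab'
        exact hH' hab'.symm
    exact lt_of_le_of_lt h4.chromaticNumber_le (by norm_num)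

theorem G_not_critical : ¬ IsCritical G 5 := by
  rintro ⟨_, h⟩
  have h67 : G.Adj 6 7 := by decide +kernel
  have h1 := h ((⊤ : G.Subgraph).deleteEdges {s(6, 7)}) (by
    intro h0
    have : ((⊤ : G.Subgraph).deleteEdges {s(6, 7)}).Adj 6 7 := by
      rw [h0]
      exact h67
    simp at this)
  have h4 : ((⊤ : G.Subgraph).deleteEdges {s(6, 7)}).coe.Colorable 4 := by
    rw [← SimpleGraph.chromaticNumber_le_iff_colorable]
    have h5 : ((5 : ℕ) : ℕ∞) = ((4 : ℕ) : ℕ∞) + 1 := by norm_num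
    rw [h5] at h1
    exact Order.le_of_lt_add_one h1
  obtain ⟨C⟩ := h4
  have hs := noCol_sound adjm 4 17
    (fun v => if h : v < 17 then (C ⟨⟨v, h⟩, by simp⟩).val else 0)
    (by
      intro v hv
      simp only [hv, dite_true]
      exact (C ⟨⟨v, hv⟩, by simp⟩).isLt)
    (by
      intro u v hu hv huv
      simp only [hu, hv, dite_true]
      intro h0
      rw [adjm, Bool.and_eq_true, Bool.not_eq_true', Bool.or_eq_false_iff,
        Bool.and_eq_false_iff, Bool.and_eq_false_iff] at huv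
      have hadj : G.Adj ⟨u, hu⟩ ⟨v, hv⟩ := huv.1
      refine C.valid (v := ⟨⟨u, hu⟩, by simp⟩) (w := ⟨⟨v, hv⟩, by simp⟩) ?_ (Fin.ext h0)
      change ((⊤ : G.Subgraph).deleteEdges {s(6, 7)}).Adj ⟨u, hu⟩ ⟨v, hv⟩
      rw [SimpleGraph.Subgraph.deleteEdges_adj]
      refine ⟨hadj, ?_⟩
      rw [Set.mem_singleton_iff, Sym2.eq_iff]
      rintro (⟨e1, e2⟩ | ⟨e1, e2⟩)
      · have e1' : u = 6 := congrArg Fin.val e1
        have e2' : v = 7 := congrArg Fin.val e2
        subst e1' e2'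
        revert huv
        decide
      · have e1' : u = 7 := congrArg Fin.val e1
        have e2' : v = 6 := congrArg Fin.val e2
        subst e1' e2'
        revert huv
        decide)
    [3, 5, 9, 7, 1, 6, 4, 8, 0, 2, 15, 14, 13, 16, 10, 11, 12] [] (by decide) (by simp)
  rw [search] at hs
  exact absurd hs (by simp)

/-- inclusion of the first copy -/
def F1 : Fin 10 → Fin 17 := ![0, 1, 2, 3, 4, 5, 6, 7, 8, 9]

/-- inclusion of the second copy -/
def F2 : Fin 10 → Fin 17 := ![10, 11, 12, 13, 14, 5, 6, 7, 15, 16]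

theorem isDirac : IsDirac 3 G1 G1 G ![6, 5, 7] ![6, 5, 7] 0 8 8 F1 F2 := by
  unfold IsDirac Function.Injective
  refine ⟨⟨by decide +kernel, by decide +kernel⟩, ⟨by decide +kernel, by decide +kernel⟩,
    ⟨by decide +kernel, by decide +kernel⟩, ⟨by decide +kernel, by decide +kernel⟩,
    ⟨by decide +kernel, by decide +kernel, by decide +kernel, by decide +kernel⟩, ?_⟩
  decide +kernel

/-- Disproof of Q1: with `k = 5` and `h = 3`, Dirac's construction applied to two copies of the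
`5`-critical graph `G1` on ten vertices gives the graph `G` on seventeen vertices, which is not
`5`-critical. -/
theorem result :
    (IsCritical G1 5 ∧ IsDirac 3 G1 G1 G ![6, 5, 7] ![6, 5, 7] 0 8 8 F1 F2 ∧
      ¬ IsCritical G 5) ∧
    ¬ ∀ (k h : ℕ), 4 ≤ k → 1 ≤ h → h ≤ k - 2 →
        ∀ (V₁ V₂ W : Type) [Finite V₁] [Finite V₂] [Finite W]
          (G₁ : SimpleGraph V₁) (G₂ : SimpleGraph V₂) (G : SimpleGraph W)
          (a₁ : Fin h → V₁) (a₂ : Fin h → V₂) (j₀ : Fin h) (y₁ : V₁) (y₂ : V₂)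
          (f₁ : V₁ → W) (f₂ : V₂ → W), IsCritical G₁ k → IsCritical G₂ k →
          IsDirac h G₁ G₂ G a₁ a₂ j₀ y₁ y₂ f₁ f₂ → IsCritical G k := by
  refine ⟨⟨G1_critical, isDirac, G_not_critical⟩, fun hall => ?_⟩
  exact G_not_critical (hall 5 3 (by norm_num) (by norm_num) (by norm_num) (Fin 10) (Fin 10)
    (Fin 17) G1 G1 G _ _ _ _ _ _ _ G1_critical G1_critical isDirac)

end Pool.Agent.Results.MP_e06427_co.SeventeenVertices
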